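import Pool.Agent.H295R2.Beu.Defs

/-!
Task B4 of helper295: `|∑_{n ≤ N} μ(n)/n| ≤ C N^(σ-1)` in a zero-free half plane.
-/

set_option autoImplicit false

open MeasureTheory Filter Topology Set

namespace Pool.Agent.H909R2.BeuB4

open Pool.Agent.H295R2 Pool.Agent.H295R2.Beu

noncomputable section

/-- partial sums of the Dirichlet series of the Moebius function -/
def SS (N : ℕ) (s : ℝ) : ℝ := ∑ n ∈ Finset.Icc 1 N, mu n * (n : ℝ) ^ (-s)

lemma SS_succ (N : ℕ) (s : ℝ) : SS (N + 1) s = SS N s + mu (N + 1) * ((N : ℝ) + 1) ^ (-s) := by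
  unfold SS
  rw [Finset.sum_Icc_succ_top (by omega)]
  push_cast
  rfl

lemma Mx_succ (N : ℕ) : Mx ((N : ℝ) + 1) = Mx (N : ℝ) + mu (N + 1) := by
  have : ((N : ℝ) + 1) = ((N + 1 : ℕ) : ℝ) := by push_cast; rfl
  rw [this]
  unfold Mx
  rw [Nat.floor_natCast, Nat.floor_natCast, Finset.sum_Icc_succ_top (by omega)]

lemma step_ineq {σ s : ℝ} (hσ : 0 < σ) (hσ1 : σ < 1) (hs : 1 ≤ s) {x : ℝ} (hx : 0 < x) :
    x ^ σ * (x ^ (-s) - (x + 1) ^ (-s)) ≤
      1 / (1 - σ) * (x ^ (σ - s) - (x + 1) ^ (σ - s)) := by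
  set r : ℝ := x / (x + 1) with hr
  have hx1 : 0 < x + 1 := by linarith
  have hr0 : 0 < r := by positivity
  have hr1 : r ≤ 1 := by rw [hr, div_le_one hx1]; linarith
  set y : ℝ := r ^ s with hy
  have hy0 : 0 < y := Real.rpow_pos_of_pos hr0 s
  have hs0 : 0 < s := by linarith
  have hy1 : y ≤ 1 := Real.rpow_le_one hr0.le hr1 hs0.le
  have e1 : (x + 1) ^ (-s) = x ^ (-s) * y := by
    rw [hy, hr, Real.div_rpow hx.le hx1.le, Real.rpow_neg hx1.le, Real.rpow_neg hx.le]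
    have := (Real.rpow_pos_of_pos hx s).ne'
    have := (Real.rpow_pos_of_pos hx1 s).ne'
    field_simp
  set β : ℝ := (s - σ) / s with hβ
  have e2 : (x + 1) ^ (σ - s) = x ^ (σ - s) * y ^ β := by
    have h1 : y ^ β = r ^ (s - σ) := by
      rw [hy, ← Real.rpow_mul hr0.le, hβ]
      congr 1
      field_simp
    rw [h1, hr, Real.div_rpow hx.le hx1.le, show σ - s = -(s - σ) by ring,
      Real.rpow_neg hx1.le, Real.rpow_neg hx.le]
    have := (Real.rpow_pos_of_pos hx (s - σ)).ne'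
    have := (Real.rpow_pos_of_pos hx1 (s - σ)).ne'
    field_simp
  have hβ0 : 0 ≤ β := by rw [hβ]; exact div_nonneg (by linarith) hs0.le
  have hβ1 : β ≤ 1 := by rw [hβ, div_le_one hs0]; linarith
  have hβ2 : 1 - σ ≤ β := by
    rw [hβ, le_div_iff₀ hs0]
    nlinarith
  have hB := rpow_one_add_le_one_add_mul_self (s := y - 1) (by linarith) hβ0 hβ1
  rw [show 1 + (y - 1) = y by ring] at hB
  have h3 : (1 - σ) * (1 - y) ≤ 1 - y ^ β := by
    have : (1 - σ) * (1 - y) ≤ β * (1 - y) := mul_le_mul_of_nonneg_right hβ2 (by linarith)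
    linarith
  rw [e1, e2]
  have h4 : x ^ σ * (x ^ (-s) - x ^ (-s) * y) = x ^ (σ - s) * (1 - y) := by
    rw [sub_eq_add_neg σ s, Real.rpow_add hx]; ring
  rw [h4]
  have h5 : 1 / (1 - σ) * (x ^ (σ - s) - x ^ (σ - s) * y ^ β) =
      x ^ (σ - s) * ((1 - y ^ β) / (1 - σ)) := by ring
  rw [h5]
  refine mul_le_mul_of_nonneg_left ?_ (Real.rpow_nonneg hx.le _)
  rw [le_div_iff₀ (by linarith)]
  linarith

lemma abel {C σ s : ℝ} (hC : 0 < C) (hσ : 0 < σ) (hσ1 : σ < 1) (hs : 1 ≤ s)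
    (hM : ∀ y : ℝ, 1 ≤ y → |Mx y| ≤ C * y ^ σ) (N : ℕ) (hN : 1 ≤ N) (K : ℕ) :
    |SS (N + K) s - SS N s - Mx ((N + K : ℕ) : ℝ) * (((N + K : ℕ) : ℝ) + 1) ^ (-s)| ≤
      C * (N : ℝ) ^ (σ - 1) + C * (1 / (1 - σ)) *
        (((N : ℝ) + 1) ^ (σ - s) - (((N + K : ℕ) : ℝ) + 1) ^ (σ - s)) := by
  have hN1 : (1 : ℝ) ≤ N := by exact_mod_cast hN
  have hN0 : (0 : ℝ) < N := by linarith
  induction K with
  | zero =>
    simp only [add_zero, sub_self, mul_zero, zero_sub, abs_neg]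
    rw [abs_mul, abs_of_pos (Real.rpow_pos_of_pos (by linarith) _)]
    have h1 := hM N hN1
    have h2 : ((N : ℝ) + 1) ^ (-s) ≤ (N : ℝ) ^ (-(1 : ℝ)) := by
      calc ((N : ℝ) + 1) ^ (-s) ≤ ((N : ℝ) + 1) ^ (-(1 : ℝ)) :=
            Real.rpow_le_rpow_of_exponent_le (by linarith) (by linarith)
        _ ≤ (N : ℝ) ^ (-(1 : ℝ)) := Real.rpow_le_rpow_of_nonpos hN0 (by linarith) (by norm_num)
    calc |Mx N| * ((N : ℝ) + 1) ^ (-s) ≤ (C * (N : ℝ) ^ σ) * (N : ℝ) ^ (-(1 : ℝ)) :=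
          mul_le_mul h1 h2 (by positivity) (by positivity)
      _ = C * (N : ℝ) ^ (σ - 1) := by
          rw [sub_eq_add_neg, Real.rpow_add hN0]; ring
  | succ K ih =>
    have hcast : ((N + (K + 1) : ℕ) : ℝ) = ((N + K : ℕ) : ℝ) + 1 := by push_cast; ring
    have hS : SS (N + (K + 1)) s =
        SS (N + K) s + mu (N + K + 1) * (((N + K : ℕ) : ℝ) + 1) ^ (-s) := by
      rw [← add_assoc, SS_succ]
    have hMx : Mx ((N + (K + 1) : ℕ) : ℝ) = Mx ((N + K : ℕ) : ℝ) + mu (N + K + 1) := by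
      rw [hcast, Mx_succ]
    set m : ℝ := ((N + K : ℕ) : ℝ) with hm
    have hm1 : 1 ≤ m := by
      rw [hm]; exact_mod_cast le_trans hN (Nat.le_add_right N K)
    have e1 : SS (N + (K + 1)) s - SS N s -
        Mx ((N + (K + 1) : ℕ) : ℝ) * (((N + (K + 1) : ℕ) : ℝ) + 1) ^ (-s) =
        (SS (N + K) s - SS N s - Mx m * (m + 1) ^ (-s)) +
          Mx ((N + (K + 1) : ℕ) : ℝ) * ((m + 1) ^ (-s) - (m + 1 + 1) ^ (-s)) := by
      rw [hS, hMx, hcast]; ring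
    rw [e1]
    refine (abs_add_le _ _).trans ?_
    have h1 : |Mx ((N + (K + 1) : ℕ) : ℝ)| ≤ C * (m + 1) ^ σ := by
      rw [hcast]; exact hM (m + 1) (by linarith)
    have h2 := step_ineq hσ hσ1 hs (x := m + 1) (by linarith)
    have h3 : 0 ≤ (m + 1) ^ (-s) - (m + 1 + 1) ^ (-s) := by
      have := Real.rpow_le_rpow_of_nonpos (x := m + 1) (y := m + 1 + 1) (z := -s)
        (by linarith) (by linarith) (by linarith)
      linarith
    have h4 : |Mx ((N + (K + 1) : ℕ) : ℝ) * ((m + 1) ^ (-s) - (m + 1 + 1) ^ (-s))| ≤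
        C * (1 / (1 - σ)) * ((m + 1) ^ (σ - s) - (m + 1 + 1) ^ (σ - s)) := by
      rw [abs_mul, abs_of_nonneg h3]
      calc |Mx ((N + (K + 1) : ℕ) : ℝ)| * ((m + 1) ^ (-s) - (m + 1 + 1) ^ (-s))
          ≤ (C * (m + 1) ^ σ) * ((m + 1) ^ (-s) - (m + 1 + 1) ^ (-s)) :=
            mul_le_mul_of_nonneg_right h1 h3
        _ = C * ((m + 1) ^ σ * ((m + 1) ^ (-s) - (m + 1 + 1) ^ (-s))) := by ring
        _ ≤ C * (1 / (1 - σ) * ((m + 1) ^ (σ - s) - (m + 1 + 1) ^ (σ - s))) :=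
            mul_le_mul_of_nonneg_left h2 hC.le
        _ = _ := by ring
    rw [hcast] at h4 ⊢
    calc |SS (N + K) s - SS N s - Mx m * (m + 1) ^ (-s)| +
          |Mx (m + 1) * ((m + 1) ^ (-s) - (m + 1 + 1) ^ (-s))|
        ≤ (C * (N : ℝ) ^ (σ - 1) + C * (1 / (1 - σ)) *
          (((N : ℝ) + 1) ^ (σ - s) - (m + 1) ^ (σ - s))) +
          C * (1 / (1 - σ)) * ((m + 1) ^ (σ - s) - (m + 1 + 1) ^ (σ - s)) := add_le_add ih h4
      _ = _ := by ring

lemma SS_diff {C σ s : ℝ} (hC : 0 < C) (hσ : 0 < σ) (hσ1 : σ < 1) (hs : 1 ≤ s)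
    (hM : ∀ y : ℝ, 1 ≤ y → |Mx y| ≤ C * y ^ σ) (N : ℕ) (hN : 1 ≤ N) (K : ℕ) :
    |SS (N + K) s - SS N s| ≤ (2 * C + C * (1 / (1 - σ))) * (N : ℝ) ^ (σ - 1) := by
  have hN1 : (1 : ℝ) ≤ N := by exact_mod_cast hN
  have hN0 : (0 : ℝ) < N := by linarith
  have h := abel hC hσ hσ1 hs hM N hN K
  set m : ℝ := ((N + K : ℕ) : ℝ) with hm
  have hmN : (N : ℝ) ≤ m := by rw [hm]; exact_mod_cast Nat.le_add_right N K
  have hm0 : 0 < m := by linarith
  have h1 : |Mx m * (m + 1) ^ (-s)| ≤ C * (N : ℝ) ^ (σ - 1) := by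
    rw [abs_mul, abs_of_pos (Real.rpow_pos_of_pos (by linarith) _)]
    have h1 := hM m (by linarith)
    have h2 : (m + 1) ^ (-s) ≤ m ^ (-(1 : ℝ)) := by
      calc (m + 1) ^ (-s) ≤ (m + 1) ^ (-(1 : ℝ)) :=
            Real.rpow_le_rpow_of_exponent_le (by linarith) (by linarith)
        _ ≤ m ^ (-(1 : ℝ)) := Real.rpow_le_rpow_of_nonpos hm0 (by linarith) (by norm_num)
    calc |Mx m| * (m + 1) ^ (-s) ≤ (C * m ^ σ) * m ^ (-(1 : ℝ)) :=
          mul_le_mul h1 h2 (by positivity) (by positivity)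
      _ = C * m ^ (σ - 1) := by
          rw [sub_eq_add_neg, Real.rpow_add hm0]; ring
      _ ≤ C * (N : ℝ) ^ (σ - 1) := mul_le_mul_of_nonneg_left
          (Real.rpow_le_rpow_of_nonpos hN0 hmN (by linarith)) hC.le
  have h2 : ((N : ℝ) + 1) ^ (σ - s) - (m + 1) ^ (σ - s) ≤ (N : ℝ) ^ (σ - 1) := by
    have h3 : 0 ≤ (m + 1) ^ (σ - s) := Real.rpow_nonneg (by linarith) _
    have h4 : ((N : ℝ) + 1) ^ (σ - s) ≤ (N : ℝ) ^ (σ - 1) := by
      calc ((N : ℝ) + 1) ^ (σ - s) ≤ ((N : ℝ) + 1) ^ (σ - 1) :=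
            Real.rpow_le_rpow_of_exponent_le (by linarith) (by linarith)
        _ ≤ (N : ℝ) ^ (σ - 1) := Real.rpow_le_rpow_of_nonpos hN0 (by linarith) (by linarith)
    linarith
  have h3 : 0 ≤ C * (1 / (1 - σ)) := by
    have : 0 < 1 - σ := by linarith
    positivity
  have h4 := mul_le_mul_of_nonneg_left h2 h3
  have h5 : |SS (N + K) s - SS N s| ≤
      |SS (N + K) s - SS N s - Mx m * (m + 1) ^ (-s)| + |Mx m * (m + 1) ^ (-s)| := by
    have := abs_add_le (SS (N + K) s - SS N s - Mx m * (m + 1) ^ (-s)) (Mx m * (m + 1) ^ (-s))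
    simpa using this
  calc |SS (N + K) s - SS N s| ≤ _ := h5
    _ ≤ (C * (N : ℝ) ^ (σ - 1) + C * (1 / (1 - σ)) * (N : ℝ) ^ (σ - 1)) +
        C * (N : ℝ) ^ (σ - 1) := by linarith
    _ = _ := by ring

lemma SS_tendsto {s : ℝ} (hs : 1 < s) :
    Tendsto (fun K : ℕ => ((SS K s : ℝ) : ℂ)) atTop (𝓝 (fz s)) := by
  have h := moebius_lseries (s := (s : ℂ)) (by simpa using hs)
  unfold LSeriesHasSum at h
  have h1 := h.tendsto_sum_nat
  have h2 := h1.comp (tendsto_add_atTop_nat 1)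
  refine h2.congr (fun K => ?_)
  simp only [Function.comp_apply]
  unfold SS
  rw [Finset.sum_range_eq_add_Ico _ (by omega), LSeries.term_zero, zero_add, Complex.ofReal_sum]
  have hI : Finset.Ico 1 (K + 1) = Finset.Icc 1 K := by
    ext x; simp only [Finset.mem_Ico, Finset.mem_Icc]; omega
  rw [hI]
  refine Finset.sum_congr rfl (fun n hn => ?_)
  have hn0 : n ≠ 0 := by
    have := (Finset.mem_Icc.1 hn).1
    omega
  rw [LSeries.term_of_ne_zero hn0, Complex.ofReal_mul, Complex.ofReal_cpow (by positivity), mu]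
  push_cast
  rw [Complex.cpow_neg, div_eq_mul_inv]

theorem mm_bound : MmBound := by
  intro θ σ hθ hσ hσ1 hz
  have hσ0 : 0 < σ := by linarith
  obtain ⟨C, hC, hM⟩ := mertens_bound hθ hz hσ (by linarith)
  have hpos : 0 < 2 * C + C * (1 / (1 - σ)) := by
    have : 0 < 1 - σ := by linarith
    positivity
  refine ⟨2 * C + C * (1 / (1 - σ)), hpos, fun N hN => ?_⟩
  -- for s > 1
  have key : ∀ s : ℝ, 1 < s → ‖fz s - ((SS N s : ℝ) : ℂ)‖ ≤
      (2 * C + C * (1 / (1 - σ))) * (N : ℝ) ^ (σ - 1) := by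
    intro s hs
    have h1 : Tendsto (fun K : ℕ => ‖((SS (K + N) s : ℝ) : ℂ) - ((SS N s : ℝ) : ℂ)‖) atTop
        (𝓝 ‖fz s - ((SS N s : ℝ) : ℂ)‖) :=
      (((tendsto_add_atTop_iff_nat N).2 (SS_tendsto hs)).sub tendsto_const_nhds).norm
    refine le_of_tendsto' h1 (fun K => ?_)
    rw [← Complex.ofReal_sub, Complex.norm_real, Real.norm_eq_abs, add_comm K N]
    exact SS_diff hC hσ0 hσ1 hs.le hM N hN K
  have hfz : Tendsto (fun s : ℝ => fz (s : ℂ)) (𝓝[>] 1) (𝓝 0) := by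
    have h1 : ContinuousAt (fun s : ℝ => fz (s : ℂ)) 1 := by
      have h2 : ContinuousAt fz (((1 : ℝ) : ℂ)) :=
        (fz_differentiableAt (Zs_ne_zero_of_one_le (by simp))).continuousAt
      exact ContinuousAt.comp (f := fun s : ℝ => (s : ℂ)) (g := fz) h2
        Complex.continuous_ofReal.continuousAt
    have h3 : fz ((1 : ℝ) : ℂ) = 0 := by simp [fz]
    have h4 := h1.tendsto
    rw [h3] at h4
    exact h4.mono_left nhdsWithin_le_nhds
  have hSS : Tendsto (fun s : ℝ => ((SS N s : ℝ) : ℂ)) (𝓝[>] 1) (𝓝 ((mm N : ℝ) : ℂ)) := by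
    have h1 : Continuous (fun s : ℝ => ((SS N s : ℝ) : ℂ)) := by
      refine Complex.continuous_ofReal.comp ?_
      unfold SS
      refine continuous_finsetSum _ (fun n hn => ?_)
      have hn0 : (n : ℝ) ≠ 0 := by
        have := (Finset.mem_Icc.1 hn).1
        exact_mod_cast (by omega : n ≠ 0)
      refine continuous_const.mul ?_
      exact Continuous.rpow continuous_const continuous_neg (fun _ => Or.inl hn0)
    have h2 : ((SS N 1 : ℝ) : ℂ) = ((mm N : ℝ) : ℂ) := by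
      unfold SS mm
      congr 1
      refine Finset.sum_congr rfl (fun n _ => ?_)
      rw [Real.rpow_neg_one, div_eq_mul_inv]
    have h3 := h1.tendsto 1
    rw [h2] at h3
    exact h3.mono_left nhdsWithin_le_nhds
  have hlim := (hfz.sub hSS).norm
  have h := le_of_tendsto hlim (by
    filter_upwards [self_mem_nhdsWithin] with s hs
    exact key s hs)
  rwa [zero_sub, norm_neg, Complex.norm_real, Real.norm_eq_abs] at h

end

end Pool.Agent.H909R2.BeuB4
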