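import Pool.Agent.H329R2.AD.Defs
import Pool.Agent.Helper112.Arith

/-! Task B1: divisor bounds. -/

set_option autoImplicit false

open Finset Filter Topology Pool.Agent.H329R2.AD

namespace Pool.Agent.H909R2.ADB

/-- integer version of `dk` -/
def D (k n : ℕ) : ℕ := ((ArithmeticFunction.zeta : ArithmeticFunction ℕ) ^ k) n

theorem dk_eq (k n : ℕ) : dk k n = (D k n : ℝ) := rfl

theorem D_zero_right (k : ℕ) : D k 0 = 0 := by
  unfold D
  exact ArithmeticFunction.map_zero

theorem D_zero_one : D 0 1 = 1 := by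
  unfold D
  rw [pow_zero]
  exact ArithmeticFunction.one_one

theorem D_zero_ne {n : ℕ} (hn : n ≠ 1) : D 0 n = 0 := by
  unfold D
  rw [pow_zero]
  exact ArithmeticFunction.one_apply_ne hn

theorem D_succ (k n : ℕ) : D (k + 1) n = ∑ m ∈ n.divisors, D k m := by
  unfold D
  rw [pow_succ]
  have h := ArithmeticFunction.coe_mul_zeta_apply
    (f := (ArithmeticFunction.zeta : ArithmeticFunction ℕ) ^ k) (x := n)
  simpa using h

theorem D_mul_le (k : ℕ) : ∀ a b : ℕ, D k (a * b) ≤ D k a * D k b := by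
  induction k with
  | zero =>
    intro a b
    by_cases hab : a * b = 1
    · obtain ⟨ha, hb⟩ := mul_eq_one.mp hab
      subst ha hb
      simp [D_zero_one]
    · rw [D_zero_ne hab]
      exact Nat.zero_le _
  | succ k ih =>
    intro a b
    rw [D_succ, D_succ, D_succ, sum_mul_sum]
    have h1 : (a * b).divisors ⊆ (a.divisors ×ˢ b.divisors).image (fun p => p.1 * p.2) := by
      intro m hm
      rw [Nat.divisors_mul] at hm
      rw [Finset.mem_mul] at hm
      obtain ⟨x, hx, y, hy, rfl⟩ := hm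
      exact mem_image.mpr ⟨(x, y), mem_product.mpr ⟨hx, hy⟩, rfl⟩
    calc ∑ m ∈ (a * b).divisors, D k m
        ≤ ∑ m ∈ (a.divisors ×ˢ b.divisors).image (fun p => p.1 * p.2), D k m :=
          sum_le_sum_of_subset h1
      _ ≤ ∑ p ∈ a.divisors ×ˢ b.divisors, D k (p.1 * p.2) :=
          sum_image_le_of_nonneg (fun _ _ => Nat.zero_le _)
      _ = ∑ x ∈ a.divisors, ∑ y ∈ b.divisors, D k (x * y) := sum_product _ _ _
      _ ≤ ∑ x ∈ a.divisors, ∑ y ∈ b.divisors, D k x * D k y :=
          sum_le_sum fun x _ => sum_le_sum fun y _ => ih x y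

/-- B1 -/
theorem dk_mul_le (k a b : ℕ) : dk k (a * b) ≤ dk k a * dk k b := by
  rw [dk_eq, dk_eq, dk_eq]
  exact_mod_cast D_mul_le k a b

theorem dk_nonneg (k n : ℕ) : 0 ≤ dk k n := by
  rw [dk_eq]
  positivity

theorem dk_succ (k n : ℕ) : dk (k + 1) n = ∑ m ∈ n.divisors, dk k m := by
  simp_rw [dk_eq]
  rw [D_succ]
  push_cast
  rfl

/-- harmonic sums -/
noncomputable def HH (N : ℕ) : ℝ := ∑ a ∈ Icc 1 N, 1 / (a : ℝ)

theorem HH_nonneg (N : ℕ) : 0 ≤ HH N := sum_nonneg fun a _ => by positivity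

theorem HH_le {y : ℝ} (hy : 1 ≤ y) : HH ⌊y⌋₊ ≤ 1 + Real.log y := by
  have h1 : HH ⌊y⌋₊ = ((harmonic ⌊y⌋₊ : ℚ) : ℝ) := by
    unfold HH
    rw [harmonic_eq_sum_Icc]
    push_cast
    apply sum_congr rfl
    intro a _
    rw [one_div]
  rw [h1]
  have h2 := harmonic_le_one_add_log ⌊y⌋₊
  have h3 : 1 ≤ ⌊y⌋₊ := Nat.le_floor (by exact_mod_cast hy)
  have h4 : Real.log (⌊y⌋₊ : ℝ) ≤ Real.log y :=
    Real.log_le_log (by exact_mod_cast h3) (Nat.floor_le (by linarith))
  linarith

theorem sum_dk_div_le (k N : ℕ) : ∑ m ∈ Icc 1 N, dk k m / m ≤ HH N ^ k := by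
  induction k with
  | zero =>
    rw [pow_zero]
    calc ∑ m ∈ Icc 1 N, dk 0 m / m ≤ ∑ m ∈ Icc 1 N, if m = 1 then (1 : ℝ) else 0 := by
          apply sum_le_sum
          intro m _
          by_cases h : m = 1
          · subst h
            rw [dk_eq, D_zero_one]
            simp
          · rw [dk_eq, D_zero_ne h]
            simp [h]
      _ ≤ 1 := by
          rw [sum_ite_eq']
          split_ifs
          · exact le_rfl
          · exact zero_le_one
  | succ k ih =>
    calc ∑ m ∈ Icc 1 N, dk (k + 1) m / m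
        = ∑ m ∈ Icc 1 N, ∑ d ∈ Icc 1 N, if d ∣ m then dk k d / m else 0 := by
          apply sum_congr rfl
          intro m hm
          rw [mem_Icc] at hm
          rw [dk_succ, sum_div, ← sum_filter]
          apply sum_congr _ (fun _ _ => rfl)
          ext d
          simp only [Nat.mem_divisors, mem_filter, mem_Icc]
          constructor
          · rintro ⟨h1, _⟩
            have := Nat.le_of_dvd (by omega) h1
            have := Nat.pos_of_dvd_of_pos h1 (by omega)
            exact ⟨⟨by omega, by omega⟩, h1⟩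
          · rintro ⟨_, h1⟩
            exact ⟨h1, by omega⟩
      _ = ∑ d ∈ Icc 1 N, ∑ m ∈ Icc 1 N, if d ∣ m then dk k d / m else 0 := sum_comm
      _ ≤ ∑ d ∈ Icc 1 N, dk k d / d * HH N := by
          apply sum_le_sum
          intro d hd
          rw [mem_Icc] at hd
          rw [← sum_filter]
          have h1 : (Icc 1 N).filter (fun m => d ∣ m) ⊆ (Icc 1 N).image (fun c => d * c) := by
            intro m hm
            rw [mem_filter, mem_Icc] at hm
            obtain ⟨⟨h2, h3⟩, c, rfl⟩ := hm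
            rw [mem_image]
            refine ⟨c, ?_, rfl⟩
            rw [mem_Icc]
            constructor
            · exact Nat.pos_of_mul_pos_left h2 |> fun h => h
            · exact le_trans (Nat.le_mul_of_pos_left c hd.1) h3
          calc ∑ m ∈ (Icc 1 N).filter (fun m => d ∣ m), dk k d / (m : ℝ)
              ≤ ∑ m ∈ (Icc 1 N).image (fun c => d * c), dk k d / (m : ℝ) :=
                sum_le_sum_of_subset_of_nonneg h1 fun m _ _ =>
                  div_nonneg (dk_nonneg _ _) (Nat.cast_nonneg _)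
            _ ≤ ∑ c ∈ Icc 1 N, dk k d / ((d * c : ℕ) : ℝ) :=
                sum_image_le_of_nonneg (fun c _ => div_nonneg (dk_nonneg _ _) (Nat.cast_nonneg _))
            _ = dk k d / d * HH N := by
                unfold HH
                rw [mul_sum]
                apply sum_congr rfl
                intro c _
                push_cast
                rw [div_mul_div_comm, mul_one]
      _ = (∑ d ∈ Icc 1 N, dk k d / d) * HH N := by rw [sum_mul]
      _ ≤ HH N ^ k * HH N := mul_le_mul_of_nonneg_right ih (HH_nonneg N)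
      _ = HH N ^ (k + 1) := (pow_succ _ _).symm

/-- B2 -/
theorem LL_le (k e : ℕ) (he : 1 ≤ e) (y : ℝ) (hy : 1 ≤ y) :
    LL k y e ≤ dk k e / e * (1 + Real.log y) ^ k := by
  unfold LL
  set N := ⌊y⌋₊ with hN
  have h1 : (Icc 1 N).filter (fun m => e ∣ m) ⊆ (Icc 1 N).image (fun c => e * c) := by
    intro m hm
    rw [mem_filter, mem_Icc] at hm
    obtain ⟨⟨h2, h3⟩, c, rfl⟩ := hm
    rw [mem_image]
    refine ⟨c, ?_, rfl⟩
    rw [mem_Icc]
    constructor
    · exact Nat.pos_of_mul_pos_left h2 |> fun h => h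
    · exact le_trans (Nat.le_mul_of_pos_left c he) h3
  calc ∑ m ∈ (Icc 1 N).filter (fun m => e ∣ m), dk k m / (m : ℝ)
      ≤ ∑ m ∈ (Icc 1 N).image (fun c => e * c), dk k m / (m : ℝ) :=
        sum_le_sum_of_subset_of_nonneg h1 fun m _ _ =>
          div_nonneg (dk_nonneg _ _) (Nat.cast_nonneg _)
    _ ≤ ∑ c ∈ Icc 1 N, dk k (e * c) / ((e * c : ℕ) : ℝ) :=
        sum_image_le_of_nonneg (fun c _ => div_nonneg (dk_nonneg _ _) (Nat.cast_nonneg _))
    _ ≤ ∑ c ∈ Icc 1 N, dk k e / e * (dk k c / c) := by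
        apply sum_le_sum
        intro c _
        rw [div_mul_div_comm]
        push_cast
        exact div_le_div_of_nonneg_right (dk_mul_le k e c) (by positivity)
    _ = dk k e / e * ∑ c ∈ Icc 1 N, dk k c / c := by rw [mul_sum]
    _ ≤ dk k e / e * (1 + Real.log y) ^ k := by
        apply mul_le_mul_of_nonneg_left _ (div_nonneg (dk_nonneg _ _) (Nat.cast_nonneg _))
        refine (sum_dk_div_le k N).trans ?_
        exact pow_le_pow_left₀ (HH_nonneg N) (HH_le hy) k

/-- B4 divisor bound -/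
theorem dk_bound (k : ℕ) (ε : ℝ) (hε : 0 < ε) :
    ∃ C : ℝ, 1 ≤ C ∧ ∀ n : ℕ, 1 ≤ n → dk k n ≤ C * (n : ℝ) ^ ε := by
  induction k generalizing ε with
  | zero =>
    refine ⟨1, le_rfl, fun n hn => ?_⟩
    have h1 : (1 : ℝ) ≤ (n : ℝ) ^ ε := Real.one_le_rpow (by exact_mod_cast hn) hε.le
    rw [dk_eq]
    by_cases h : n = 1
    · subst h
      rw [D_zero_one]
      simp
    · rw [D_zero_ne h]
      simp
      positivity
  | succ k ih =>
    obtain ⟨C, hC, hCb⟩ := ih (ε / 2) (by positivity)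
    obtain ⟨B, hB, hBb⟩ := Pool.Agent.Helper112.divisor_bound (ε / 2) (by positivity)
    refine ⟨max 1 (B * C), le_max_left _ _, fun n hn => ?_⟩
    have hn0 : (0 : ℝ) < n := by exact_mod_cast hn
    have h1 : dk (k + 1) n ≤ (n.divisors.card : ℝ) * (C * (n : ℝ) ^ (ε / 2)) := by
      rw [dk_succ, ← nsmul_eq_mul, ← sum_const]
      apply sum_le_sum
      intro m hm
      have hmn : m ≤ n := Nat.divisor_le hm
      have hm1 : 1 ≤ m := Nat.pos_of_mem_divisors hm
      refine (hCb m hm1).trans ?_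
      apply mul_le_mul_of_nonneg_left _ (by linarith)
      exact Real.rpow_le_rpow (Nat.cast_nonneg m) (by exact_mod_cast hmn) (by positivity)
    refine h1.trans ?_
    have h2 := mul_le_mul_of_nonneg_right (hBb n hn)
      (show 0 ≤ C * (n : ℝ) ^ (ε / 2) by positivity)
    refine h2.trans ?_
    have h3 : B * (n : ℝ) ^ (ε / 2) * (C * (n : ℝ) ^ (ε / 2)) = B * C * (n : ℝ) ^ ε := by
      have : (n : ℝ) ^ ε = (n : ℝ) ^ (ε / 2) * (n : ℝ) ^ (ε / 2) := by
        rw [← Real.rpow_add hn0]
        congr 1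
        ring
      rw [this]
      ring
    rw [h3]
    apply mul_le_mul_of_nonneg_right (le_max_right _ _) (by positivity)

end Pool.Agent.H909R2.ADB
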