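import Pool.Agent.H329R2.AD.Defs

/-! Task F: upper bound for the correlation of the truncated sums. -/

set_option autoImplicit false

open Finset Filter Topology Pool.Agent.H329R2.AD

namespace Pool.Agent.H909R2.ADF

theorem dk_nonneg (k n : ℕ) : 0 ≤ dk k n := by
  unfold dk
  positivity

theorem count_le (m M h x : ℕ) (hm : 1 ≤ m) (hM : 1 ≤ M) :
    (((Icc 1 x).filter (fun n => m ∣ n ∧ M ∣ n + h)).card : ℝ) ≤
      x * ((Nat.gcd m M : ℝ) / ((m : ℝ) * (M : ℝ))) + 1 := by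
  set s := (Icc 1 x).filter (fun n => m ∣ n ∧ M ∣ n + h) with hs
  have hL0 : 0 < Nat.lcm m M := Nat.lcm_pos hm hM
  have hLeq : (Nat.gcd m M : ℝ) / ((m : ℝ) * (M : ℝ)) = 1 / (Nat.lcm m M : ℝ) := by
    have h1 : (Nat.gcd m M : ℝ) * (Nat.lcm m M : ℝ) = m * M := by
      exact_mod_cast Nat.gcd_mul_lcm m M
    have h2 : (0 : ℝ) < m * M := by positivity
    have h3 : (0 : ℝ) < (Nat.lcm m M : ℝ) := by exact_mod_cast hL0
    rw [div_eq_div_iff h2.ne' h3.ne', one_mul]
    exact h1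
  rw [hLeq]
  rcases s.eq_empty_or_nonempty with he | hne
  · rw [he]
    simp
    positivity
  · obtain ⟨n0, hn0, hmin⟩ := s.exists_min_image id hne
    have h0 := (mem_filter.mp hn0)
    have hcard : s.card ≤ x / Nat.lcm m M + 1 := by
      have h1 : s.card ≤ (range (x / Nat.lcm m M + 1)).card := by
        apply Finset.card_le_card_of_injOn (fun n => (n - n0) / Nat.lcm m M)
        · intro n hn
          rw [mem_coe, mem_filter, mem_Icc] at hn
          rw [mem_coe, mem_range, Nat.lt_succ_iff]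
          exact Nat.div_le_div_right (by omega)
        · intro n hn n' hn' heq
          have hdiv : ∀ n ∈ s, Nat.lcm m M ∣ n - n0 := by
            intro n hn
            have h2 := (mem_filter.mp hn).2
            have h3 : n0 ≤ n := hmin n hn
            apply Nat.lcm_dvd
            · exact Nat.dvd_sub h2.1 h0.2.1
            · have h4 := Nat.dvd_sub h2.2 h0.2.2
              have h5 : n + h - (n0 + h) = n - n0 := by omega
              rwa [h5] at h4
          obtain ⟨t, ht⟩ := hdiv n hn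
          obtain ⟨t', ht'⟩ := hdiv n' hn'
          simp only at heq
          rw [ht, ht', Nat.mul_div_cancel_left _ hL0, Nat.mul_div_cancel_left _ hL0] at heq
          have h3 : n0 ≤ n := hmin n hn
          have h4 : n0 ≤ n' := hmin n' hn'
          rw [heq] at ht
          omega
      rwa [card_range] at h1
    have h2 : (s.card : ℝ) ≤ ((x / Nat.lcm m M : ℕ) : ℝ) + 1 := by exact_mod_cast hcard
    have h3 : ((x / Nat.lcm m M : ℕ) : ℝ) ≤ (x : ℝ) / (Nat.lcm m M : ℝ) := Nat.cast_div_le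
    have h4 : (x : ℝ) * (1 / (Nat.lcm m M : ℝ)) = (x : ℝ) / (Nat.lcm m M : ℝ) := by ring
    rw [h4]
    linarith

theorem AA_upper (k h x y : ℕ) (hh : 1 ≤ h) :
    ∑ n ∈ Icc 1 x, (∑ m ∈ n.divisors.filter (fun m => m ≤ y), dk k m) *
      (∑ m ∈ (n + h).divisors.filter (fun m => m ≤ y), dk k m) ≤
      x * BB k h y y + (∑ m ∈ Icc 1 y, dk k m) ^ 2 := by
  have hdiv : ∀ n, 1 ≤ n → n.divisors.filter (fun m => m ≤ y) =
      (Icc 1 y).filter (fun m => m ∣ n) := by
    intro n hn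
    ext m
    simp only [mem_filter, Nat.mem_divisors, mem_Icc]
    constructor
    · rintro ⟨⟨h1, _⟩, h2⟩
      exact ⟨⟨Nat.pos_of_dvd_of_pos h1 hn, h2⟩, h1⟩
    · rintro ⟨⟨_, h2⟩, h1⟩
      exact ⟨⟨h1, by omega⟩, h2⟩
  have h1 : ∀ n ∈ Icc 1 x, (∑ m ∈ n.divisors.filter (fun m => m ≤ y), dk k m) *
      (∑ m ∈ (n + h).divisors.filter (fun m => m ≤ y), dk k m) =
      ∑ m ∈ Icc 1 y, ∑ M ∈ Icc 1 y, dk k m * dk k M * (if m ∣ n ∧ M ∣ n + h then 1 else 0) := by
    intro n hn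
    rw [mem_Icc] at hn
    rw [hdiv n hn.1, hdiv (n + h) (by omega), sum_filter, sum_filter, sum_mul_sum]
    apply sum_congr rfl
    intro m _
    apply sum_congr rfl
    intro M _
    by_cases a : m ∣ n <;> by_cases b : M ∣ n + h <;> simp [a, b]
  rw [sum_congr rfl h1, sum_comm]
  have h2 : (∑ m ∈ Icc 1 y, dk k m) ^ 2 = ∑ m ∈ Icc 1 y, ∑ M ∈ Icc 1 y, dk k m * dk k M := by
    rw [sq, sum_mul_sum]
  have h3 : (x : ℝ) * BB k h y y = ∑ m ∈ Icc 1 y, ∑ M ∈ Icc 1 y,
      x * (if Nat.gcd m M ∣ h then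
        dk k m * dk k M * (Nat.gcd m M : ℝ) / ((m : ℝ) * (M : ℝ)) else 0) := by
    unfold BB
    rw [Nat.floor_natCast, mul_sum]
    apply sum_congr rfl
    intro m _
    rw [mul_sum]
  rw [h2, h3, ← sum_add_distrib]
  apply sum_le_sum
  intro m hm
  rw [← sum_add_distrib, sum_comm]
  apply sum_le_sum
  intro M hM
  rw [mem_Icc] at hm hM
  rw [← mul_sum]
  have hd0 : 0 ≤ dk k m * dk k M := mul_nonneg (dk_nonneg _ _) (dk_nonneg _ _)
  have h4 : ∑ n ∈ Icc 1 x, (if m ∣ n ∧ M ∣ n + h then (1 : ℝ) else 0) =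
      (((Icc 1 x).filter (fun n => m ∣ n ∧ M ∣ n + h)).card : ℝ) := by
    rw [sum_boole]
  rw [h4]
  by_cases hg : Nat.gcd m M ∣ h
  · rw [if_pos hg]
    have h5 := mul_le_mul_of_nonneg_left (count_le m M h x hm.1 hM.1) hd0
    refine h5.trans (le_of_eq ?_)
    ring
  · rw [if_neg hg, mul_zero, zero_add]
    have h5 : (Icc 1 x).filter (fun n => m ∣ n ∧ M ∣ n + h) = ∅ := by
      rw [filter_eq_empty_iff]
      rintro n _ ⟨a, b⟩
      apply hg
      have c1 : Nat.gcd m M ∣ n := (Nat.gcd_dvd_left m M).trans a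
      have c2 : Nat.gcd m M ∣ n + h := (Nat.gcd_dvd_right m M).trans b
      exact (Nat.dvd_add_right c1).mp c2
    rw [h5]
    simp [hd0]

end Pool.Agent.H909R2.ADF
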