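import Mathlib
import Pool.Agent.H410R2.ENIface
import Pool.Agent.H400R2.AC4

/-!
Second moments of the repelling weights on rough positions, for a weighted set
(task EN3 of helper410): `CountMaps → MomW → SecondW`.
-/

set_option autoImplicit false

open Finset Pool.Agent.H410R2.AC Pool.Agent.H410R2.EN Pool.Agent.H400R2.AC4

namespace Pool.Agent.H909R2.EN3

variable {n : ℕ}

/-- the content of `MomW` for fixed constants -/
def MomK (n K : ℕ) : Prop :=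
  ∀ (T : Type) [Fintype T] [DecidableEq T], Fintype.card T ≤ n →
  ∀ (b J z0 D0 D2 : ℕ) (P1 P2 : Finset ℕ) (ρ : ℕ → ℕ → ℕ) (κ : ℕ → ℕ → ℝ) (e : ℕ → ℕ)
    (w : ℕ → ℝ) (M : ℕ) (A : ℝ) (err : Finset ℕ → ℝ) (S S' : T → Finset (Finset ℕ))
    (σ σ' : T → Option ℕ) (δ : ℝ),
    K ≤ b → K ≤ z0 → (∀ p ∈ P1, p.Prime ∧ z0 < p ∧ p ≤ 2 ^ 2 ^ J) →
    (∀ p ∈ P2, p.Prime ∧ z0 < p ∧ 2 ^ 2 ^ J < p) → Dens κ e (P1 ∪ P2) → (∀ m, 0 ≤ w m) → 0 ≤ A →
    Equid κ w M A (P1 ∪ P2) D0 err → (2 ^ 2 ^ J) ^ (K * b) * D2 ≤ D0 →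
    (∀ R ∈ Fintype.piFinset S, ∀ R' ∈ Fintype.piFinset S',
      (∏ τ, ∏ p ∈ R τ, p) * (∏ τ, ∏ p ∈ R' τ, p) ≤ D2) →
    Std ρ P2 S σ → Std ρ P2 S' σ' → (∀ p ∈ P1, ∀ a ∈ pos σ ∪ pos σ', ρ p a < p) →
    dl e ρ (P1 ∪ P2) (pos σ ∪ pos σ') ≤ δ → δ ≤ 1 →
    (Defect S S' σ σ' → |MM ρ P1 w M S S' σ σ'| ≤
      EE K b J P2 A (V1 P1 ^ (pos σ ∪ pos σ').card) δ (ET K (P1 ∪ P2) D0 err)) ∧
    (σ = σ' → S = S' →
      |MM ρ P1 w M S S' σ σ' - A * V1 P1 ^ (pos σ ∪ pos σ').card * ∏ τ, GG (S τ)| ≤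
      EE K b J P2 A (V1 P1 ^ (pos σ ∪ pos σ').card) δ (ET K (P1 ∪ P2) D0 err))

lemma rg_cases (ρ : ℕ → ℕ → ℕ) (P : Finset ℕ) (a m : ℕ) : rg ρ P a m = 0 ∨ rg ρ P a m = 1 := by
  unfold rg
  split_ifs <;> simp

lemma prod_rg_union (ρ : ℕ → ℕ → ℕ) (P U U' : Finset ℕ) (m : ℕ) :
    (∏ a ∈ U, rg ρ P a m) * (∏ a ∈ U', rg ρ P a m) = ∏ a ∈ U ∪ U', rg ρ P a m := by
  by_cases h : ∃ a ∈ U ∪ U', rg ρ P a m = 0
  · obtain ⟨a, ha, h0⟩ := h
    rw [Finset.prod_eq_zero ha h0]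
    rcases Finset.mem_union.1 ha with h | h
    · rw [Finset.prod_eq_zero h h0, zero_mul]
    · rw [Finset.prod_eq_zero h h0, mul_zero]
  · push Not at h
    have h1 : ∀ a ∈ U ∪ U', rg ρ P a m = 1 := fun a ha => (rg_cases ρ P a m).resolve_left (h a ha)
    rw [Finset.prod_eq_one h1, Finset.prod_eq_one (fun a ha => h1 a (Finset.mem_union_left _ ha)),
      Finset.prod_eq_one (fun a ha => h1 a (Finset.mem_union_right _ ha)), mul_one]

/-- the indicator of an optional position -/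
noncomputable def rgo (ρ : ℕ → ℕ → ℕ) (P : Finset ℕ) (m : ℕ) (o : Option ℕ) : ℝ :=
  o.elim 1 (fun a => rg ρ P a m)

lemma prod_rgo {T : Type} [Fintype T] (ρ : ℕ → ℕ → ℕ) (P : Finset ℕ) (m : ℕ)
    (σ : T → Option ℕ) : ∏ τ, rgo ρ P m (σ τ) = ∏ a ∈ pos σ, rg ρ P a m := by
  by_cases h : ∃ a ∈ pos σ, rg ρ P a m = 0
  · obtain ⟨a, ha, h0⟩ := h
    rw [Finset.prod_eq_zero ha h0]
    rw [mem_pos] at ha
    obtain ⟨τ, hτ⟩ := ha
    exact Finset.prod_eq_zero (Finset.mem_univ τ) (by rw [hτ]; simpa [rgo] using h0)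
  · push Not at h
    have h1 : ∀ a ∈ pos σ, rg ρ P a m = 1 := fun a ha => (rg_cases ρ P a m).resolve_left (h a ha)
    rw [Finset.prod_eq_one h1]
    refine Finset.prod_eq_one (fun τ _ => ?_)
    cases hτ : σ τ with
    | none => simp [rgo]
    | some a => simpa [rgo] using h1 a ((mem_pos σ a).2 ⟨τ, hτ⟩)

lemma term_xx (ρ : ℕ → ℕ → ℕ) (P1 : Finset ℕ) (S : Fin n → Finset (Finset ℕ)) (g : Fin n → ℝ)
    (m : ℕ) (σ : Fin n → Option ℕ) :
    term (xx ρ P1 S g m) σ =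
      term (fun τ a => - g τ * FF ρ (S τ) (some a) m) σ * ∏ τ, rgo ρ P1 m (σ τ) := by
  rw [term, term, ← Finset.prod_mul_distrib]
  refine Finset.prod_congr rfl (fun τ _ => ?_)
  cases h : σ τ with
  | none => simp [rgo]
  | some a => simp only [xx, rgo, Option.elim_some]; ring

lemma term_eq2 (ρ : ℕ → ℕ → ℕ) (P1 : Finset ℕ) (S : Fin n → Finset (Finset ℕ)) (g : Fin n → ℝ)
    (S1 : Finset (Finset ℕ)) (o : Option ℕ) (σ : Fin n → Option ℕ) (m : ℕ) :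
    term (xx ρ P1 S g m) σ * (rgo ρ P1 m o * FF ρ S1 o m) =
      AA g σ * ((∏ a ∈ pos (ext o σ), rg ρ P1 a m) * ZZ ρ (extS S1 S σ) (ext o σ) m) := by
  have h1 : ∏ a ∈ pos (ext o σ), rg ρ P1 a m = rgo ρ P1 m o * ∏ τ, rgo ρ P1 m (σ τ) := by
    rw [← prod_rgo, Fintype.prod_option]
    rfl
  rw [h1, term_xx]
  have h2 := term_eq ρ S g S1 o σ m
  calc term (fun τ a => - g τ * FF ρ (S τ) (some a) m) σ * (∏ τ, rgo ρ P1 m (σ τ)) *
        (rgo ρ P1 m o * FF ρ S1 o m)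
      = (term (fun τ a => - g τ * FF ρ (S τ) (some a) m) σ * FF ρ S1 o m) *
          (rgo ρ P1 m o * ∏ τ, rgo ρ P1 m (σ τ)) := by ring
    _ = _ := by rw [h2]; ring

lemma card_pos_eq (σ : Fin n → Option ℕ) (hi : Inj σ) :
    (univ.filter (fun τ => ¬ σ τ = none)).card = (pos σ).card := by
  refine le_antisymm ?_ (card_pos_le σ)
  refine Finset.card_le_card_of_injOn (fun τ => (σ τ).getD 0) ?_ ?_
  · intro τ hτ
    simp only [Finset.coe_filter, Finset.mem_univ, true_and, Set.mem_ofPred_eq] at hτ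
    obtain ⟨a, ha⟩ := Option.ne_none_iff_exists'.1 hτ
    rw [Finset.mem_coe, mem_pos]
    exact ⟨τ, by simp [ha]⟩
  · intro τ hτ τ' hτ' h
    simp only [Finset.coe_filter, Finset.mem_univ, true_and, Set.mem_ofPred_eq] at hτ hτ'
    obtain ⟨a, ha⟩ := Option.ne_none_iff_exists'.1 hτ
    obtain ⟨a', ha'⟩ := Option.ne_none_iff_exists'.1 hτ'
    simp only [ha, ha', Option.getD_some] at h
    subst h
    exact hi τ τ' a ha ha'

lemma prod_GG2 (S : Fin n → Finset (Finset ℕ)) (g : Fin n → ℝ)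
    (S1 : Finset (Finset ℕ)) (σ : Fin n → Option ℕ) (hi : Inj σ) (v : ℝ) :
    AA g σ * AA g σ * (v ^ (pos σ).card * ∏ t, GG (extS S1 S σ t)) =
      GG S1 * occ (fun τ => g τ ^ 2 * (v * GG (S τ))) σ := by
  have h1 := prod_GG S g S1 σ
  have h2 : v ^ (pos σ).card = ∏ τ, (if σ τ = none then (1 : ℝ) else v) := by
    rw [Finset.prod_ite, Finset.prod_const_one, one_mul, Finset.prod_const, card_pos_eq σ hi]
  have h3 : occ (fun τ => g τ ^ 2 * (v * GG (S τ))) σ =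
      occ (fun τ => g τ ^ 2 * GG (S τ)) σ * v ^ (pos σ).card := by
    rw [h2, occ, occ, ← Finset.prod_mul_distrib]
    refine Finset.prod_congr rfl (fun τ _ => ?_)
    by_cases h : σ τ = none
    · simp [h]
    · simp only [h, if_false]; ring
  rw [h3]
  calc AA g σ * AA g σ * (v ^ (pos σ).card * ∏ t, GG (extS S1 S σ t))
      = (AA g σ * AA g σ * ∏ t, GG (extS S1 S σ t)) * v ^ (pos σ).card := by ring
    _ = _ := by rw [h1]; ring

lemma abs_AA_le2 (g : Fin n → ℝ) (C : ℝ) (hC : 1 ≤ C)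
    (hg : ∀ τ, 0 ≤ g τ ∧ g τ ≤ C) (σ : Fin n → Option ℕ) :
    |AA g σ| ≤ C ^ n :=
  abs_AA_le' g C 1 hC one_pos le_rfl (fun τ => ⟨(hg τ).1, by rw [mul_one]; exact (hg τ).2⟩) σ

lemma err_nonneg {κ : ℕ → ℕ → ℝ} {w : ℕ → ℝ} {M : ℕ} {A : ℝ} {P : Finset ℕ} {D0 : ℕ}
    {err : Finset ℕ → ℝ} (hE : Equid κ w M A P D0 err) (hP : ∀ p ∈ P, p.Prime)
    (T : Finset ℕ) (hT : T ∈ P.powerset.filter (fun T : Finset ℕ => ∏ p ∈ T, p ≤ D0)) :
    0 ≤ err T := by
  rw [Finset.mem_filter, Finset.mem_powerset] at hT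
  exact le_trans (abs_nonneg _) (hE T hT.1 hT.2 (fun _ => 0) (fun p hp => (hP p (hT.1 hp)).pos))

lemma ET_mono {κ : ℕ → ℕ → ℝ} {w : ℕ → ℝ} {M : ℕ} {A : ℝ} {P : Finset ℕ} {D0 : ℕ}
    {err : Finset ℕ → ℝ} (hE : Equid κ w M A P D0 err) (hP : ∀ p ∈ P, p.Prime)
    {K K' : ℕ} (hK : K ≤ K') : ET K P D0 err ≤ ET K' P D0 err := by
  unfold ET
  refine Finset.sum_le_sum (fun T hT => ?_)
  refine mul_le_mul_of_nonneg_right ?_ (err_nonneg hE hP T hT)
  exact pow_le_pow_left₀ (by positivity) (by exact_mod_cast hK) _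

lemma ET_nonneg {κ : ℕ → ℕ → ℝ} {w : ℕ → ℝ} {M : ℕ} {A : ℝ} {P : Finset ℕ} {D0 : ℕ}
    {err : Finset ℕ → ℝ} (hE : Equid κ w M A P D0 err) (hP : ∀ p ∈ P, p.Prime)
    (K : ℕ) : 0 ≤ ET K P D0 err := by
  unfold ET
  exact Finset.sum_nonneg (fun T hT => mul_nonneg (by positivity) (err_nonneg hE hP T hT))

lemma V1_nonneg (P : Finset ℕ) (hP : ∀ p ∈ P, p.Prime) : 0 ≤ V1 P := by
  refine Finset.prod_nonneg (fun p hp => ?_)
  have h2 : (2 : ℝ) ≤ p := by exact_mod_cast (hP p hp).two_le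
  have : 1 / (p : ℝ) ≤ 1 := by
    rw [div_le_one (by linarith)]; linarith
  linarith

lemma V1_pos (P : Finset ℕ) (hP : ∀ p ∈ P, p.Prime) : 0 < V1 P := by
  refine Finset.prod_pos (fun p hp => ?_)
  have h2 : (2 : ℝ) ≤ p := by exact_mod_cast (hP p hp).two_le
  have : 1 / (p : ℝ) < 1 := by
    rw [div_lt_one (by linarith)]; linarith
  linarith

lemma dl_nonneg (e : ℕ → ℕ) (ρ : ℕ → ℕ → ℕ) (P U : Finset ℕ) (hP : ∀ p ∈ P, p.Prime) :
    0 ≤ dl e ρ P U := by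
  unfold dl
  refine add_nonneg (Finset.sum_nonneg (fun p _ => by positivity))
    (Finset.sum_nonneg (fun p hp => ?_))
  have hp2 : (2 : ℝ) ≤ p := by exact_mod_cast (hP p (Finset.mem_filter.1 hp).1).two_le
  apply one_div_nonneg.mpr; linarith

/-- both parts of `SecondW` at once: `o` is the extra position -/
theorem main_gen (hcm : CountMaps) (n : ℕ) (C : ℝ) (KM K : ℕ) (hC : 1 ≤ C)
    (hM : MomK (n + 1) KM) (hKM : KM ≤ K) (hKe : 2 * n + KM ≤ K)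
    (hKc : C ^ (2 * n) * (1 + 2 * n + C) ^ (2 * n) * (KM * C ^ KM) ≤ K)
    (b J z0 D0 : ℕ) (P1 P2 B B' : Finset ℕ) (ρ : ℕ → ℕ → ℕ) (κ : ℕ → ℕ → ℝ) (e : ℕ → ℕ)
    (w : ℕ → ℝ) (M : ℕ) (A : ℝ) (err : Finset ℕ → ℝ) (S : Fin n → Finset (Finset ℕ))
    (g : Fin n → ℝ) (Y : Fin n → ℕ) (Y1 : ℕ) (V δ : ℝ)
    (hset : Setup K b J z0 D0 P1 P2 B ρ κ e w M A err)
    (hD : (2 ^ 2 ^ J) ^ (K * b) * (Y1 * ∏ τ, Y τ) ^ 2 ≤ D0) (hV : 0 < V) (hV1 : V ≤ 1)
    (hδ1 : δ ≤ 1) (hPi : Pi1 P2 ≤ C / V) (hB : (B.card : ℝ) * V1 P1 ≤ C / V)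
    (hg : ∀ τ, 0 ≤ g τ ∧ g τ ≤ C)
    (hSP : ∀ τ, ∀ R ∈ S τ, R ⊆ P2) (hS0 : ∀ τ, ∅ ∉ S τ)
    (hSd : ∀ τ τ', τ ≠ τ' → Disjoint (S τ) (S τ'))
    (hdel : ∀ U ⊆ B, U.card ≤ 2 * n + 2 → dl e ρ (P1 ∪ P2) U ≤ δ)
    (hY : ∀ τ, 1 ≤ Y τ ∧ ∀ R ∈ S τ, ∏ p ∈ R, p ≤ Y τ)
    (S1 : Finset (Finset ℕ)) (o : Option ℕ) (hB' : B' ⊆ B)
    (ho : ∀ a, o = some a → a ∈ B ∧ a ∉ B') (hS1 : o = none → S1 = {∅})
    (hS1P : ∀ R ∈ S1, R ⊆ P2)
    (hS1Y : ∀ R ∈ S1, ∏ p ∈ R, p ≤ Y1)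
    (c : (Fin n → Option ℕ) → ℝ) (hc : ∀ σ, |c σ| ≤ 1) :
    |∑ m ∈ range M, w m * (WW B' c (xx ρ P1 S g m) * (rgo ρ P1 m o * FF ρ S1 o m)) ^ 2 -
      A * (V1 P1 ^ o.toFinset.card * GG S1 *
        ∑ σ ∈ cfg n B', c σ ^ 2 * occ (fun τ => g τ ^ 2 * (V1 P1 * GG (S τ))) σ)| ≤
    EF n K b J B.card (A * V1 P1 ^ o.toFinset.card) V δ (ET K (P1 ∪ P2) D0 err) := by
  classical
  obtain ⟨hKb, hKz, hP1, hP2, hdens, hw, hA, hE, hρ⟩ := hset
  have hPP : ∀ p ∈ P1 ∪ P2, p.Prime := by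
    intro p hp
    rcases Finset.mem_union.1 hp with h | h
    · exact (hP1 p h).1
    · exact (hP2 p h).1
  have hρ1 : ∀ p ∈ P1, ∀ a ∈ B, ρ p a < p := fun p hp => hρ p (Finset.mem_union_left _ hp)
  have hρ2 : ∀ p ∈ P2, ∀ a ∈ B, ρ p a < p := fun p hp => hρ p (Finset.mem_union_right _ hp)
  have hP1' : ∀ p ∈ P1, p.Prime := fun p hp => (hP1 p hp).1
  have hP2' : ∀ p ∈ P2, p.Prime := fun p hp => (hP2 p hp).1
  have hv := V1_nonneg P1 hP1'
  have hQ0 := Pi1_nonneg P2 hP2'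
  have hET0 := ET_nonneg hE hPP KM
  have hETm := ET_mono hE hPP hKM
  have hδ : 0 ≤ δ :=
    le_trans (dl_nonneg e ρ (P1 ∪ P2) ∅ hPP) (hdel ∅ (Finset.empty_subset _) (by simp))
  set v : ℝ := V1 P1 with hvdef
  set RR : (Fin n → Option ℕ) → ℕ → ℝ := fun σ m => ∏ a ∈ pos (ext o σ), rg ρ P1 a m with hRR
  set ZS : (Fin n → Option ℕ) → ℕ → ℝ := fun σ m => ZZ ρ (extS S1 S σ) (ext o σ) m with hZS
  set MX : (Fin n → Option ℕ) → (Fin n → Option ℕ) → ℝ :=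
    fun σ σ' => MM ρ P1 w M (extS S1 S σ) (extS S1 S σ') (ext o σ) (ext o σ') with hMdef
  set D : (Fin n → Option ℕ) → (Fin n → Option ℕ) → ℝ :=
    fun σ σ' => if σ = σ' then A * v ^ (pos (ext o σ) ∪ pos (ext o σ')).card *
      ∏ t, GG (extS S1 S σ t) else 0 with hD'
  have hcard : ∀ σ ∈ cfg n B', ∀ σ' ∈ cfg n B', (pos (ext o σ) ∪ pos (ext o σ')).card =
      o.toFinset.card + (pos σ ∪ pos σ').card := by
    intro σ hσ σ' hσ'
    rw [pos_ext, pos_ext, ← Finset.union_union_distrib_left, Finset.card_union_of_disjoint]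
    rw [Finset.disjoint_left]
    intro a ha hb
    rw [Option.mem_toFinset, Option.mem_def] at ha
    rcases Finset.mem_union.1 hb with h | h
    · exact (ho a ha).2 (pos_sub_of_cfg hσ h)
    · exact (ho a ha).2 (pos_sub_of_cfg hσ' h)
  -- expansion of the square
  have e1 : ∑ m ∈ range M, w m * (WW B' c (xx ρ P1 S g m) *
      (rgo ρ P1 m o * FF ρ S1 o m)) ^ 2 =
      ∑ σ ∈ cfg n B', ∑ σ' ∈ cfg n B', (c σ * AA g σ * (c σ' * AA g σ')) * MX σ σ' := by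
    have e0 : ∀ m, w m * (WW B' c (xx ρ P1 S g m) * (rgo ρ P1 m o * FF ρ S1 o m)) ^ 2 =
        ∑ σ ∈ cfg n B', ∑ σ' ∈ cfg n B', (c σ * AA g σ * (c σ' * AA g σ')) *
          (w m * ((∏ a ∈ pos (ext o σ) ∪ pos (ext o σ'), rg ρ P1 a m) * (ZS σ m * ZS σ' m))) := by
      intro m
      have : WW B' c (xx ρ P1 S g m) * (rgo ρ P1 m o * FF ρ S1 o m) =
          ∑ σ ∈ cfg n B', c σ * AA g σ * (RR σ m * ZS σ m) := by
        rw [WW, Finset.sum_mul]
        refine Finset.sum_congr rfl (fun σ _ => ?_)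
        rw [mul_assoc, term_eq2, hZS, hRR]; ring
      rw [this, sq, Finset.sum_mul_sum, Finset.mul_sum]
      refine Finset.sum_congr rfl (fun σ _ => ?_)
      rw [Finset.mul_sum]
      refine Finset.sum_congr rfl (fun σ' _ => ?_)
      rw [← prod_rg_union]
      simp only [hRR]
      ring
    rw [Finset.sum_congr rfl (fun m _ => e0 m), Finset.sum_comm]
    refine Finset.sum_congr rfl (fun σ _ => ?_)
    rw [Finset.sum_comm]
    refine Finset.sum_congr rfl (fun σ' _ => ?_)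
    rw [hMdef, ← Finset.mul_sum]
    rfl
  have e2 : A * (v ^ o.toFinset.card * GG S1 *
      ∑ σ ∈ cfg n B', c σ ^ 2 * occ (fun τ => g τ ^ 2 * (v * GG (S τ))) σ) =
      ∑ σ ∈ cfg n B', ∑ σ' ∈ cfg n B', (c σ * AA g σ * (c σ' * AA g σ')) * D σ σ' := by
    rw [Finset.mul_sum, Finset.mul_sum]
    refine Finset.sum_congr rfl (fun σ hσ => ?_)
    rw [Finset.sum_eq_single_of_mem σ hσ (fun σ' _ h => by simp [hD', Ne.symm h])]
    have := prod_GG2 S g S1 σ (inj_of_cfg hσ) v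
    have hc2 := hcard σ hσ σ hσ
    rw [Finset.union_self (pos σ)] at hc2
    simp only [hD', if_true, hc2, pow_add]
    calc A * (v ^ o.toFinset.card * GG S1 *
          (c σ ^ 2 * occ (fun τ => g τ ^ 2 * (v * GG (S τ))) σ))
        = A * v ^ o.toFinset.card * c σ ^ 2 *
          (GG S1 * occ (fun τ => g τ ^ 2 * (v * GG (S τ))) σ) := by ring
      _ = _ := by rw [← this]; ring
  rw [e1, e2, ← Finset.sum_sub_distrib]
  have hbb : (0 : ℝ) ≤ (1 / 2 : ℝ) ^ b := by positivity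
  have hexp0 : 0 ≤ Real.exp (KM * δ) - 1 + (1 / 2 : ℝ) ^ b := by
    have := Real.one_le_exp (x := (KM : ℝ) * δ) (by positivity)
    linarith
  have hexp : Real.exp (KM * δ) - 1 + (1 / 2 : ℝ) ^ b ≤
      Real.exp (K * δ) - 1 + (1 / 2 : ℝ) ^ b := by
    have h1 : (KM : ℝ) * δ ≤ K * δ := mul_le_mul_of_nonneg_right (by exact_mod_cast hKM) hδ
    have := Real.exp_le_exp.2 h1
    linarith
  have hCV : 0 ≤ C / V := by positivity
  have hPk : Pi1 P2 ^ KM ≤ (C / V) ^ KM := pow_le_pow_left₀ hQ0 hPi _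
  have hJE : 0 ≤ ((J : ℝ) + 2) * ET KM (P1 ∪ P2) D0 err := by positivity
  -- per pair
  have e3 : ∀ σ ∈ cfg n B', ∀ σ' ∈ cfg n B',
      |(c σ * AA g σ * (c σ' * AA g σ')) * MX σ σ' -
        (c σ * AA g σ * (c σ' * AA g σ')) * D σ σ'| ≤
      (C ^ (2 * n) * (A * v ^ o.toFinset.card * (KM * (C / V) ^ KM *
        (Real.exp (KM * δ) - 1 + (1 / 2 : ℝ) ^ b)))) * v ^ (pos σ ∪ pos σ').card +
      C ^ (2 * n) * (KM * (C / V) ^ KM * (((J : ℝ) + 2) * ET KM (P1 ∪ P2) D0 err)) := by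
    intro σ hσ σ' hσ'
    have hst := std_ext ρ P2 B B' S S1 o hB' ho hS1 hS1P hSP hρ2 σ hσ
    have hst' := std_ext ρ P2 B B' S S1 o hB' ho hS1 hS1P hSP hρ2 σ' hσ'
    have hRb : ∀ σ : Fin n → Option ℕ, ∀ R ∈ Fintype.piFinset (extS S1 S σ),
        ∏ t, ∏ p ∈ R t, p ≤ Y1 * ∏ τ, Y τ := by
      intro σ R hR
      rw [Fintype.mem_piFinset] at hR
      rw [Fintype.prod_option]
      refine Nat.mul_le_mul ?_ ?_
      · exact hS1Y _ (by simpa [extS] using hR none)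
      · refine Finset.prod_le_prod' (fun τ _ => ?_)
        have h1 := hR (some τ)
        simp only [extS, Option.elim_some, absS] at h1
        split_ifs at h1 with h
        · rw [Finset.mem_singleton] at h1
          rw [h1, Finset.prod_empty]
          exact (hY τ).1
        · exact (hY τ).2 _ h1
    have hUB : pos (ext o σ) ∪ pos (ext o σ') ⊆ B := by
      rw [pos_ext, pos_ext]
      intro a ha
      simp only [Finset.mem_union, Option.mem_toFinset, Option.mem_def] at ha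
      rcases ha with (h | h) | (h | h)
      · exact (ho a h).1
      · exact hB' (pos_sub_of_cfg hσ h)
      · exact (ho a h).1
      · exact hB' (pos_sub_of_cfg hσ' h)
    have hcc := hcard σ hσ σ' hσ'
    have hdel' : dl e ρ (P1 ∪ P2) (pos (ext o σ) ∪ pos (ext o σ')) ≤ δ := by
      apply hdel _ hUB
      rw [hcc]
      have h3 := Finset.card_union_le (pos σ) (pos σ')
      have h4 := card_pos_le_n σ
      have h5 := card_pos_le_n σ'
      have h6 : o.toFinset.card ≤ 1 := by cases o <;> simp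
      omega
    have hDD : (2 ^ 2 ^ J) ^ (KM * b) * (Y1 * ∏ τ, Y τ) ^ 2 ≤ D0 := by
      refine le_trans (Nat.mul_le_mul_right _ ?_) hD
      exact Nat.pow_le_pow_right (by positivity) (Nat.mul_le_mul_right _ hKM)
    have hmm := hM (Option (Fin n)) (by simp) b J z0 D0 ((Y1 * ∏ τ, Y τ) ^ 2) P1 P2 ρ κ e w M A err
      (extS S1 S σ) (extS S1 S σ') (ext o σ) (ext o σ') δ (hKM.trans hKb) (hKM.trans hKz) hP1 hP2
      hdens hw hA hE hDD
      (fun R hR R' hR' => by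
        rw [sq]
        exact Nat.mul_le_mul (hRb σ R hR) (hRb σ' R' hR'))
      hst hst' (fun p hp a ha => hρ1 p hp a (hUB ha)) hdel' hδ1
    have hMD : |MX σ σ' - D σ σ'| ≤
        EE KM b J P2 A (v ^ (pos (ext o σ) ∪ pos (ext o σ')).card) δ
          (ET KM (P1 ∪ P2) D0 err) := by
      by_cases h : σ = σ'
      · subst h
        have := hmm.2 rfl rfl
        simp only [hMdef, hD', if_true]
        exact this
      · have := hmm.1 (defect_ext B B' S S1 o ho hS0 hSd σ σ' hσ hσ' h)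
        simp only [hMdef, hD', if_neg h, sub_zero]
        exact this
    rw [← mul_sub, abs_mul]
    have hcA : |c σ * AA g σ * (c σ' * AA g σ')| ≤ C ^ (2 * n) := by
      rw [abs_mul, abs_mul, abs_mul]
      have h1 := hc σ
      have h2 := hc σ'
      have h3 : |c σ| * |AA g σ| ≤ C ^ n := by
        have := mul_le_mul_of_nonneg_right h1 (abs_nonneg (AA g σ))
        have h5 := abs_AA_le2 g C hC hg σ
        linarith
      have h4 : |c σ'| * |AA g σ'| ≤ C ^ n := by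
        have := mul_le_mul_of_nonneg_right h2 (abs_nonneg (AA g σ'))
        have h5 := abs_AA_le2 g C hC hg σ'
        linarith
      rw [two_mul, pow_add]
      exact mul_le_mul h3 h4 (by positivity) (by positivity)
    refine (mul_le_mul hcA hMD (abs_nonneg _) (by positivity)).trans ?_
    rw [EE, hcc, pow_add, mul_add]
    refine add_le_add ?_ ?_
    · calc C ^ (2 * n) * (A * (v ^ o.toFinset.card * v ^ (pos σ ∪ pos σ').card) *
            (KM * Pi1 P2 ^ KM * (Real.exp (KM * δ) - 1 + (1 / 2 : ℝ) ^ b)))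
          ≤ C ^ (2 * n) * (A * (v ^ o.toFinset.card * v ^ (pos σ ∪ pos σ').card) *
            (KM * (C / V) ^ KM * (Real.exp (KM * δ) - 1 + (1 / 2 : ℝ) ^ b))) := by gcongr
        _ = _ := by ring
    · gcongr
  have hcardc : ((cfg n B').card : ℝ) ≤ (B.card + 1 : ℝ) ^ n := by
    have h1 := card_cfg_le (n := n) B'
    have h2 : ((cfg n B').card : ℝ) ≤ ((B'.card + 1 : ℕ) : ℝ) ^ n := by exact_mod_cast h1
    refine h2.trans (pow_le_pow_left₀ (by positivity) ?_ _)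
    push_cast
    have : (B'.card : ℝ) ≤ B.card := by exact_mod_cast Finset.card_le_card hB'
    linarith
  have hv0 : 0 < v := V1_pos P1 hP1'
  have hsp := sum_pairs (n := n) hcm B' (C / V) v hv0 (by
    have h1 : (B'.card : ℝ) ≤ B.card := by exact_mod_cast Finset.card_le_card hB'
    nlinarith)
  have hL1 : (1 : ℝ) ≤ (1 + 2 * n + C / V) ^ (2 * n) := by
    refine one_le_pow₀ ?_
    have : (0 : ℝ) ≤ n := by positivity
    linarith
  have hconst : C ^ (2 * n) * (KM * (C / V) ^ KM) * (1 + 2 * n + C / V) ^ (2 * n) ≤ K / V ^ K := by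
    have h1 : (1 + 2 * n + C / V : ℝ) ≤ (1 + 2 * n + C) / V := by
      rw [le_div_iff₀ hV, add_mul, div_mul_cancel₀ _ hV.ne']
      have : (1 + 2 * n : ℝ) * V ≤ (1 + 2 * n) * 1 :=
        mul_le_mul_of_nonneg_left hV1 (by positivity)
      linarith
    have h2 : (1 + 2 * n + C / V : ℝ) ^ (2 * n) ≤ ((1 + 2 * n + C) / V) ^ (2 * n) :=
      pow_le_pow_left₀ (by positivity) h1 _
    calc C ^ (2 * n) * (KM * (C / V) ^ KM) * (1 + 2 * n + C / V) ^ (2 * n)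
        ≤ C ^ (2 * n) * (KM * (C / V) ^ KM) * ((1 + 2 * n + C) / V) ^ (2 * n) := by gcongr
      _ = (C ^ (2 * n) * (1 + 2 * n + C) ^ (2 * n) * (KM * C ^ KM)) / V ^ (2 * n + KM) := by
          rw [div_pow, div_pow, pow_add]
          field_simp
      _ ≤ K / V ^ (2 * n + KM) := by gcongr
      _ ≤ K / V ^ K := by
          refine div_le_div_of_nonneg_left (by positivity) (by positivity) ?_
          exact pow_le_pow_of_le_one hV.le hV1 hKe
  have hconst2 : C ^ (2 * n) * (KM * (C / V) ^ KM) ≤ K / V ^ K := by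
    refine le_trans ?_ hconst
    exact le_mul_of_one_le_right (by positivity) hL1
  calc |∑ σ ∈ cfg n B', (∑ σ' ∈ cfg n B', (c σ * AA g σ * (c σ' * AA g σ')) * MX σ σ' -
        ∑ σ' ∈ cfg n B', (c σ * AA g σ * (c σ' * AA g σ')) * D σ σ')|
      ≤ ∑ σ ∈ cfg n B', ∑ σ' ∈ cfg n B', |(c σ * AA g σ * (c σ' * AA g σ')) * MX σ σ' -
          (c σ * AA g σ * (c σ' * AA g σ')) * D σ σ'| := by
        refine (Finset.abs_sum_le_sum_abs _ _).trans (Finset.sum_le_sum (fun σ _ => ?_))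
        rw [← Finset.sum_sub_distrib]
        exact Finset.abs_sum_le_sum_abs _ _
    _ ≤ ∑ σ ∈ cfg n B', ∑ σ' ∈ cfg n B',
        ((C ^ (2 * n) * (A * v ^ o.toFinset.card * (KM * (C / V) ^ KM *
        (Real.exp (KM * δ) - 1 + (1 / 2 : ℝ) ^ b)))) * v ^ (pos σ ∪ pos σ').card +
        C ^ (2 * n) * (KM * (C / V) ^ KM * (((J : ℝ) + 2) * ET KM (P1 ∪ P2) D0 err))) :=
        Finset.sum_le_sum (fun σ hσ => Finset.sum_le_sum (fun σ' hσ' => e3 σ hσ σ' hσ'))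
    _ = (C ^ (2 * n) * (A * v ^ o.toFinset.card * (KM * (C / V) ^ KM *
        (Real.exp (KM * δ) - 1 + (1 / 2 : ℝ) ^ b)))) *
          (∑ σ ∈ cfg n B', ∑ σ' ∈ cfg n B', v ^ (pos σ ∪ pos σ').card) +
        (cfg n B').card * ((cfg n B').card *
          (C ^ (2 * n) * (KM * (C / V) ^ KM * (((J : ℝ) + 2) * ET KM (P1 ∪ P2) D0 err)))) := by
        simp only [Finset.sum_add_distrib, Finset.sum_const, nsmul_eq_mul, ← Finset.mul_sum]
    _ ≤ (C ^ (2 * n) * (A * v ^ o.toFinset.card * (KM * (C / V) ^ KM *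
        (Real.exp (KM * δ) - 1 + (1 / 2 : ℝ) ^ b)))) * (1 + 2 * n + C / V) ^ (2 * n) +
        (B.card + 1 : ℝ) ^ n * ((B.card + 1 : ℝ) ^ n *
          (C ^ (2 * n) * (KM * (C / V) ^ KM * (((J : ℝ) + 2) * ET KM (P1 ∪ P2) D0 err)))) := by
        gcongr
    _ = (A * v ^ o.toFinset.card) *
          ((C ^ (2 * n) * (KM * (C / V) ^ KM) * (1 + 2 * n + C / V) ^ (2 * n)) *
            (Real.exp (KM * δ) - 1 + (1 / 2 : ℝ) ^ b)) +
        (C ^ (2 * n) * (KM * (C / V) ^ KM)) * (B.card + 1 : ℝ) ^ (2 * n) *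
          (((J : ℝ) + 2) * ET KM (P1 ∪ P2) D0 err) := by ring
    _ ≤ (A * v ^ o.toFinset.card) *
          ((K / V ^ K) * (Real.exp (K * δ) - 1 + (1 / 2 : ℝ) ^ b)) +
        (K / V ^ K) * (B.card + 1 : ℝ) ^ (2 * n + 2) *
          (((J : ℝ) + 2) * ET K (P1 ∪ P2) D0 err) := by
        have hbc : (1 : ℝ) ≤ B.card + 1 := by
          have : (0 : ℝ) ≤ B.card := by positivity
          linarith
        have hpw : (B.card + 1 : ℝ) ^ (2 * n) ≤ (B.card + 1 : ℝ) ^ (2 * n + 2) :=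
          pow_le_pow_right₀ hbc (by omega)
        gcongr

/-- Task EN3: the second moments, with and without a spectator position. -/
theorem secondW_of : CountMaps → MomW → SecondW := by
  intro hcm hmom n C hC
  obtain ⟨KM, hKM1, hM⟩ := hmom (n + 1)
  obtain ⟨K0, hK0⟩ := exists_nat_ge (C ^ (2 * n) * (1 + 2 * n + C) ^ (2 * n) * (KM * C ^ KM))
  refine ⟨K0 + (2 * n + KM), by omega, ?_⟩
  intro b J z0 D0 P1 P2 B ρ κ e w M A err S g Y Y1 V δ hset hD hV hV1 hδ1 hPi hB hg hSP hS0 hSd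
    hdel hY hY1
  have hKc : C ^ (2 * n) * (1 + 2 * n + C) ^ (2 * n) * (KM * C ^ KM) ≤
      ((K0 + (2 * n + KM) : ℕ) : ℝ) := by
    refine hK0.trans ?_
    exact_mod_cast Nat.le_add_right _ _
  constructor
  · intro c hc
    have h := main_gen hcm n C KM (K0 + (2 * n + KM)) hC hM (by omega) (by omega) hKc b J z0 D0
      P1 P2 B B ρ κ e w M A err S g Y Y1 V δ hset hD hV hV1 hδ1 hPi hB hg hSP hS0 hSd hdel hY
      {∅} none (Finset.Subset.refl B) (fun a h => by simp at h) (fun _ => rfl)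
      (fun R hR => by rw [Finset.mem_singleton] at hR; rw [hR]; exact Finset.empty_subset _)
      (fun R hR => by rw [Finset.mem_singleton] at hR; rw [hR, Finset.prod_empty]; exact hY1)
      c hc
    simp only [rgo, Option.elim_none, FF_empty, mul_one, GG_empty, one_mul,
      Option.toFinset_none, Finset.card_empty, pow_zero] at h
    exact h
  · intro S1 hS1P hS1Y a₀ ha₀ c hc
    have h := main_gen hcm n C KM (K0 + (2 * n + KM)) hC hM (by omega) (by omega) hKc b J z0 D0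
      P1 P2 B (B.erase a₀) ρ κ e w M A err S g Y Y1 V δ hset hD hV hV1 hδ1 hPi hB hg hSP hS0 hSd
      hdel hY S1 (some a₀) (Finset.erase_subset _ _)
      (fun a h => by
        rw [Option.some.injEq] at h
        subst h
        exact ⟨ha₀, Finset.notMem_erase _ _⟩) (fun h => by simp at h)
      hS1P hS1Y c hc
    simp only [rgo, Option.elim_some, Option.toFinset_some, Finset.card_singleton, pow_one] at h
    exact h

end Pool.Agent.H909R2.EN3
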