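import Pool.Agent.H361R2.PP.Iface

set_option autoImplicit false

open Finset

namespace Pool.Agent.H909R2

theorem pz_holds : Pool.Agent.H361R2.PP.Pz := by
  intro S w N m A μ s q hw hA hs hs1 hμ hq hm h1 h2 h3 h4
  set T := S.filter (fun n => m ≤ N n) with hT
  set c := (1 - s) * μ - (1 + s) * m with hc
  set D := q * μ ^ 2 + (1 + s) * μ with hD
  have hD0 : 0 < D := by
    have e1 : 0 ≤ q * μ ^ 2 := by positivity
    have e2 : 0 < (1 + s) * μ := by positivity
    linarith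
  have hc0 : 0 ≤ c := by linarith
  have hTS : T ⊆ S := Finset.filter_subset _ _
  have hsplit := Finset.sum_filter_add_sum_filter_not S (fun n => m ≤ N n)
    (fun n => w n * (N n : ℝ))
  have hsmall : ∑ n ∈ S.filter (fun n => ¬ m ≤ N n), w n * (N n : ℝ) ≤ (m : ℝ) * ((1 + s) * A) := by
    calc ∑ n ∈ S.filter (fun n => ¬ m ≤ N n), w n * (N n : ℝ) ≤
        ∑ n ∈ S.filter (fun n => ¬ m ≤ N n), w n * (m : ℝ) := by
          apply Finset.sum_le_sum
          intro n hn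
          rw [Finset.mem_filter] at hn
          apply mul_le_mul_of_nonneg_left _ (hw n hn.1)
          have : N n ≤ m := by omega
          exact_mod_cast this
      _ ≤ ∑ n ∈ S, w n * (m : ℝ) := by
          apply Finset.sum_le_sum_of_subset_of_nonneg (Finset.filter_subset _ _)
          intro n hn _
          exact mul_nonneg (hw n hn) (Nat.cast_nonneg _)
      _ = (m : ℝ) * ∑ n ∈ S, w n := by rw [← Finset.sum_mul]; ring
      _ ≤ _ := mul_le_mul_of_nonneg_left h1 (Nat.cast_nonneg _)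
  have hbig : c * A ≤ ∑ n ∈ T, w n * (N n : ℝ) := by
    have : ∑ n ∈ T, w n * (N n : ℝ) =
        ∑ n ∈ S, w n * (N n : ℝ) - ∑ n ∈ S.filter (fun n => ¬ m ≤ N n), w n * (N n : ℝ) := by
      rw [← hsplit]; ring
    rw [this, hc]
    nlinarith
  have hsq : ∑ n ∈ T, w n * (N n : ℝ) ^ 2 ≤ D * A := by
    calc ∑ n ∈ T, w n * (N n : ℝ) ^ 2 ≤ ∑ n ∈ S, w n * (N n : ℝ) ^ 2 := by
          apply Finset.sum_le_sum_of_subset_of_nonneg hTS
          intro n hn _
          exact mul_nonneg (hw n hn) (by positivity)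
      _ = ∑ n ∈ S, w n * (N n * ((N n : ℝ) - 1)) + ∑ n ∈ S, w n * (N n : ℝ) := by
          rw [← Finset.sum_add_distrib]
          apply Finset.sum_congr rfl
          intro n _
          ring
      _ ≤ q * μ ^ 2 * A + (1 + s) * μ * A := add_le_add h4 h3
      _ = D * A := by rw [hD]; ring
  have hCS : (∑ n ∈ T, w n * (N n : ℝ)) ^ 2 ≤ (∑ n ∈ T, w n) * ∑ n ∈ T, w n * (N n : ℝ) ^ 2 := by
    apply Finset.sum_sq_le_sum_mul_sum_of_sq_eq_mul
    · intro n hn
      exact hw n (hTS hn)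
    · intro n hn
      exact mul_nonneg (hw n (hTS hn)) (by positivity)
    · intro n _
      ring
  have hT0 : 0 ≤ ∑ n ∈ T, w n := Finset.sum_nonneg (fun n hn => hw n (hTS hn))
  have h5 : (c * A) ^ 2 ≤ (∑ n ∈ T, w n) * (D * A) := by
    calc (c * A) ^ 2 ≤ (∑ n ∈ T, w n * (N n : ℝ)) ^ 2 :=
          pow_le_pow_left₀ (mul_nonneg hc0 hA.le) hbig 2
      _ ≤ _ := hCS
      _ ≤ _ := mul_le_mul_of_nonneg_left hsq hT0
  have h6 : c ^ 2 * A ≤ (∑ n ∈ T, w n) * D := by
    have : c ^ 2 * A * A ≤ (∑ n ∈ T, w n) * D * A := by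
      calc c ^ 2 * A * A = (c * A) ^ 2 := by ring
        _ ≤ _ := h5
        _ = _ := by ring
    exact le_of_mul_le_mul_right this hA
  rw [div_mul_eq_mul_div, div_le_iff₀ hD0]
  exact h6

theorem cs_holds : Pool.Agent.H361R2.PP.Cs := by
  intro S V G _ a b ha hb h1 h2
  have h3 : (∑ n ∈ S.filter G, V n ^ 2) ^ 2 ≤
      ((S.filter G).card : ℝ) * ∑ n ∈ S.filter G, (V n ^ 2) ^ 2 := sq_sum_le_card_mul_sum_sq
  have h4 : ∑ n ∈ S.filter G, (V n ^ 2) ^ 2 ≤ b := by
    calc ∑ n ∈ S.filter G, (V n ^ 2) ^ 2 = ∑ n ∈ S.filter G, V n ^ 4 := by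
          apply Finset.sum_congr rfl
          intro n _
          ring
      _ ≤ ∑ n ∈ S, V n ^ 4 := by
          apply Finset.sum_le_sum_of_subset_of_nonneg (Finset.filter_subset _ _)
          intro n _ _
          positivity
      _ ≤ b := h2
  rw [div_le_iff₀ hb]
  calc a ^ 2 ≤ (∑ n ∈ S.filter G, V n ^ 2) ^ 2 := pow_le_pow_left₀ ha h1 2
    _ ≤ _ := h3
    _ ≤ _ := mul_le_mul_of_nonneg_left h4 (Nat.cast_nonneg _)

end Pool.Agent.H909R2
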