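import Pool.Agent.H923R2.FP.Stubs

set_option autoImplicit false

namespace Pool.Agent.H923R2.FP.T_EPS
open Pool.Agent.H923R2.FP

theorem word_step (x : F2) (c : Bool) :
    (x * FreeGroup.of c).toWord = x.toWord ++ [(c, true)] ∨
      x.toWord = (x * FreeGroup.of c).toWord ++ [(c, false)] := by
  have hred : FreeGroup.IsReduced x.toWord := FreeGroup.isReduced_toWord
  by_cases h : ∃ l, x.toWord = l ++ [(c, false)]
  · right
    obtain ⟨l, hl⟩ := h
    have hx : x = FreeGroup.mk (l ++ [(c, false)]) := by rw [← hl, FreeGroup.mk_toWord]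
    have hx2 : x * FreeGroup.of c = FreeGroup.mk l := by
      rw [hx, ← FreeGroup.mul_mk, mul_assoc]
      have : (FreeGroup.mk [(c, false)] : F2) = (FreeGroup.of c)⁻¹ := by
        simp [FreeGroup.of, FreeGroup.inv_mk, FreeGroup.invRev]
      rw [this]
      simp
    have hlred : FreeGroup.IsReduced l := by
      rw [hl] at hred
      exact (List.isChain_append.1 hred).1
    rw [hx2, FreeGroup.toWord_mk, hlred.reduce_eq, hl]
  · left
    have hred2 : FreeGroup.IsReduced (x.toWord ++ [(c, true)]) := by
      refine List.isChain_append.2 ⟨hred, List.isChain_singleton _, ?_⟩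
      intro p hp q hq
      simp only [List.head?_cons, Option.mem_def, Option.some.injEq] at hq
      subst hq
      intro h1
      by_contra h2
      apply h
      have hp' : p = (c, false) := by
        refine Prod.ext h1 ?_
        simpa using h2
      rw [Option.mem_def] at hp
      refine ⟨x.toWord.dropLast, ?_⟩
      rw [← hp']
      have := List.dropLast_append_getLast? p hp
      exact this.symm
    have hx2 : x * FreeGroup.of c = FreeGroup.mk (x.toWord ++ [(c, true)]) := by
      rw [← FreeGroup.mul_mk, FreeGroup.mk_toWord]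
      rfl
    rw [hx2, FreeGroup.toWord_mk, hred2.reduce_eq]

open Classical in
noncomputable def chi (g : F2) : ℝ := if S1 g then 1 else 0

open Classical in
noncomputable def dd (g : F2) : ℝ := if g = 1 then 1 else 0

open Classical in
theorem chi_word (x y : F2) (c b : Bool) (h : y.toWord = x.toWord ++ [(c, b)]) :
    chi y = chi x + (if c then dd x else 0) ∧ dd y = 0 := by
  have hy1 : y ≠ 1 := by
    intro h1
    rw [h1, FreeGroup.toWord_one] at h
    simp at h
  refine ⟨?_, by simp [dd, hy1]⟩
  by_cases hx : x = 1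
  · have hS : ¬ S1 x := by
      rw [hx]
      simp [S1]
    rw [hx] at h hS ⊢
    rw [FreeGroup.toWord_one, List.nil_append] at h
    cases c
    · have : ¬ S1 y := by
        simp [S1, h]
      simp [chi, hS, this]
    · have : S1 y := by
        simp [S1, h]
      simp [chi, hS, this, dd]
  · have hw : x.toWord ≠ [] := by
      intro h0
      exact hx (FreeGroup.toWord_eq_nil_iff.1 h0)
    have : S1 y ↔ S1 x := by
      unfold S1
      rw [h, List.head?_append_of_ne_nil _ hw]
    simp [chi, this, dd, hx]

theorem step_a (x : F2) : chi (x * FreeGroup.of false) = chi x := by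
  rcases word_step x false with h | h
  · have := (chi_word _ _ _ _ h).1
    simpa using this
  · have := (chi_word _ _ _ _ h).1
    simpa using this.symm

theorem step_u (x : F2) :
    chi (x * FreeGroup.of true) - chi x = dd x - dd (x * FreeGroup.of true) := by
  rcases word_step x true with h | h
  · have := (chi_word _ _ _ _ h)
    rw [this.1, this.2]
    simp
  · have := (chi_word _ _ _ _ h)
    rw [this.1, this.2]
    simp

theorem pow_a (x : F2) (j : ℕ) : chi (x * FreeGroup.of false ^ j) = chi x := by
  induction j with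
  | zero => simp
  | succ j ih => rw [pow_succ, ← mul_assoc, step_a, ih]

theorem pow_u (x : F2) (j : ℕ) :
    chi (x * FreeGroup.of true ^ j) - chi x = dd x - dd (x * FreeGroup.of true ^ j) := by
  induction j with
  | zero => simp
  | succ j ih =>
    have := step_u (x * FreeGroup.of true ^ j)
    rw [pow_succ, ← mul_assoc]
    linarith

theorem two_step (g : F2) (m : ℕ) :
    chi (g * yy (2 * m + 2)) - chi (g * yy (2 * m)) =
      dd (g * yy (2 * m + 1)) - dd (g * yy (2 * m + 2)) := by
  have h1 : yy (2 * m + 1) = yy (2 * m) * FreeGroup.of false ^ (2 * m / 2 + 1) := by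
    show yy (2 * m) * zz (2 * m) = _
    unfold zz
    simp
  have h2 : yy (2 * m + 2) = yy (2 * m + 1) * FreeGroup.of true ^ ((2 * m + 1) / 2 + 1) := by
    show yy (2 * m + 1) * zz (2 * m + 1) = _
    unfold zz
    have : (2 * m + 1) % 2 = 1 := by omega
    rw [this]
    rfl
  have e1 : chi (g * yy (2 * m + 1)) = chi (g * yy (2 * m)) := by
    rw [h1, ← mul_assoc, pow_a]
  have e2 := pow_u (g * yy (2 * m + 1)) ((2 * m + 1) / 2 + 1)
  rw [mul_assoc g, ← h2, e1] at e2
  exact e2

theorem eps_eq (L : ℕ) (g : F2) :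
    eps (yy (2 * L)) g = ∑ k ∈ Finset.Icc 1 (2 * L), (-1 : ℝ) ^ (k + 1) * dd (g * yy k) := by
  have key : chi (g * yy (2 * L)) - chi g =
      ∑ k ∈ Finset.Icc 1 (2 * L), (-1 : ℝ) ^ (k + 1) * dd (g * yy k) := by
    induction L with
    | zero => simp [yy]
    | succ L ih =>
      have h := two_step g L
      have e : 2 * (L + 1) = 2 * L + 1 + 1 := by ring
      rw [e, Finset.sum_Icc_succ_top (by omega), Finset.sum_Icc_succ_top (by omega), ← ih]
      have h3 : (-1 : ℝ) ^ (2 * L + 1 + 1) = 1 := by
        rw [show 2 * L + 1 + 1 = 2 * (L + 1) by ring, pow_mul]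
        simp
      have h4 : (-1 : ℝ) ^ (2 * L + 1 + 1 + 1) = -1 := by
        rw [pow_succ, h3]
        ring
      rw [h3, h4]
      have h5 : 2 * L + 1 + 1 = 2 * L + 2 := rfl
      rw [h5]
      linarith
  exact key

theorem act_one (x : F2) (t : F2 →₀ ℝ) : (act x t) 1 = t x⁻¹ := by
  unfold act
  have h := Finsupp.mapDomain_apply (f := fun w : F2 => x * w) (mul_right_injective x) t x⁻¹
  simpa using h

theorem t_EPS : S_EPS := by
  intro L t
  have h1 : (Zs L t) 1 = ∑ k ∈ Finset.Icc 1 (2 * L), (-1 : ℝ) ^ (k + 1) * t (yy k)⁻¹ := by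
    unfold Zs
    rw [Finsupp.finsetSum_apply]
    refine Finset.sum_congr rfl fun k _ => ?_
    rw [Finsupp.smul_apply, act_one, smul_eq_mul]
  rw [h1]
  simp only [eps_eq, Finset.mul_sum]
  rw [Finset.sum_comm]
  refine Finset.sum_congr rfl fun k _ => ?_
  have h2 : ∀ g : F2, t g * ((-1 : ℝ) ^ (k + 1) * dd (g * yy k)) =
      if g = (yy k)⁻¹ then (-1 : ℝ) ^ (k + 1) * t (yy k)⁻¹ else 0 := by
    intro g
    unfold dd
    by_cases hg : g = (yy k)⁻¹
    · rw [if_pos hg, hg, if_pos (by simp)]
      ring
    · have : g * yy k ≠ 1 := fun h => hg (mul_eq_one_iff_eq_inv.1 h)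
      rw [if_neg hg, if_neg this]
      ring
  simp only [h2]
  rw [Finset.sum_ite_eq']
  by_cases hm : (yy k)⁻¹ ∈ t.support
  · rw [if_pos hm]
  · rw [if_neg hm, Finsupp.notMem_support_iff.1 hm, mul_zero]

end Pool.Agent.H923R2.FP.T_EPS
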